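import Mathlib

/-!
# Regular graphs in which every `k` maximal cliques share a vertex

For `k ≥ 1` let `X` have `2 k` elements. The vertices of the graph are the pairs `(A, B)` of
`k`-subsets of `X`, pairwise adjacent, and for every vertex `p` of the complete bipartite graph
`K_{2k,2k}` (two copies of `X`) a clique of `g` vertices `(p, j)`; `(p, j)` and `(q, l)` with `p ≠ q` are
adjacent iff `p q` is an edge of `K_{2k,2k}`, and `(A, B)` is adjacent to `(p, j)` iff `p` is in `A` or
in `B`, according to the copy. With `g` one half of the number of pairs `(A, B)` the graph is regular.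
-/

set_option autoImplicit false

namespace Pool.Agent.Results.MP_7cf704_co.EveryKCliquesMeet

open Finset

variable (k : ℕ)

/-- the `k`-subsets of `Fin (2 k)` -/
abbrev P : Type := {A : Finset (Fin (2 * k)) // A.card = k}

/-- half of the number of pairs of `k`-subsets -/
def g : ℕ := Fintype.card (P k) * (Fintype.card (P k) / 2)

/-- the vertices -/
abbrev W : Type := (P k × P k) ⊕ ((Bool × Fin (2 * k)) × Fin (g k))

variable {k}

/-- the vertex `p` of `K_{2k,2k}` is in `(A, B)` -/
def inS (s : P k × P k) (p : Bool × Fin (2 * k)) : Prop := p.2 ∈ (if p.1 then s.1 else s.2).1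

instance (s : P k × P k) (p : Bool × Fin (2 * k)) : Decidable (inS s p) := by
  unfold inS; infer_instance

/-- adjacency -/
def adj : W k → W k → Prop
  | Sum.inl s, Sum.inl t => s ≠ t
  | Sum.inl s, Sum.inr p => inS s p.1
  | Sum.inr p, Sum.inl s => inS s p.1
  | Sum.inr p, Sum.inr q => p ≠ q ∧ (p.1 = q.1 ∨ p.1.1 ≠ q.1.1)

instance : DecidableRel (adj (k := k)) := by
  intro v w
  rcases v with s | p <;> rcases w with t | q <;> unfold adj <;> infer_instance

theorem adj_symm (v w : W k) (h : adj v w) : adj w v := by
  rcases v with s | p <;> rcases w with t | q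
  · exact fun e => h e.symm
  · exact h
  · exact h
  · exact ⟨fun e => h.1 e.symm, h.2.imp (fun e => e.symm) (fun e e' => e e'.symm)⟩

theorem adj_irrefl (v : W k) : ¬ adj v v := by
  intro h
  rcases v with s | p
  · exact h rfl
  · exact h.1 rfl

variable (k) in
/-- the graph -/
def G : SimpleGraph (W k) where
  Adj := adj
  symm := ⟨fun v w h => adj_symm v w h⟩
  loopless := ⟨fun v h => adj_irrefl v h⟩

instance : DecidableRel (G k).Adj := fun v w => inferInstanceAs (Decidable (adj v w))

/-- half of the `k`-subsets contain `x` -/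
theorem two_mul_card_mem (x : Fin (2 * k)) :
    2 * (univ.filter fun A : P k => x ∈ A.1).card = Fintype.card (P k) := by
  have h1 : (univ.filter fun A : P k => x ∈ A.1).card = (univ.filter fun A : P k => x ∉ A.1).card := by
    have hc : ∀ A : P k, (A.1ᶜ).card = k := by
      intro A
      rw [card_compl, A.2, Fintype.card_fin]
      omega
    refine card_nbij' (fun A => ⟨A.1ᶜ, hc A⟩) (fun A => ⟨A.1ᶜ, hc A⟩) ?_ ?_ ?_ ?_
    · intro A hA
      simp only [coe_filter, mem_univ, true_and, Set.mem_ofPred_eq, mem_compl, not_not] at hA ⊢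
      exact hA
    · intro A hA
      simp only [coe_filter, mem_univ, true_and, Set.mem_ofPred_eq, mem_compl] at hA ⊢
      exact hA
    · intro A _
      exact Subtype.ext (compl_compl _)
    · intro A _
      exact Subtype.ext (compl_compl _)
  have h2 := Finset.card_filter_add_card_filter_not (s := (univ : Finset (P k))) (fun A : P k => x ∈ A.1)
  rw [card_univ] at h2
  omega

theorem card_mem (x : Fin (2 * k)) :
    (univ.filter fun A : P k => x ∈ A.1).card = Fintype.card (P k) / 2 := by
  have := two_mul_card_mem (k := k) x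
  omega

theorem card_split (v : W k) : (univ.filter fun w : W k => adj v w).card =
    (univ.filter fun t : P k × P k => adj v (Sum.inl t)).card +
    (univ.filter fun q : (Bool × Fin (2 * k)) × Fin (g k) => adj v (Sum.inr q)).card := by
  simp only [card_filter]
  exact Fintype.sum_sum_type _

theorem card_inS (p : Bool × Fin (2 * k)) :
    (univ.filter fun s : P k × P k => inS s p).card = g k := by
  rcases p with ⟨b, x⟩
  cases b
  · have : (univ.filter fun s : P k × P k => inS s (false, x)) =
        univ ×ˢ (univ.filter fun A : P k => x ∈ A.1) := by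
      ext s
      simp [inS]
    rw [this, card_product, card_univ, card_mem]
    rfl
  · have : (univ.filter fun s : P k × P k => inS s (true, x)) =
        (univ.filter fun A : P k => x ∈ A.1) ×ˢ univ := by
      ext s
      simp [inS]
    rw [this, card_product, card_univ, card_mem, mul_comm]
    rfl

theorem card_pts (s : P k × P k) :
    (univ.filter fun p : Bool × Fin (2 * k) => inS s p).card = 2 * k := by
  have : (univ.filter fun p : Bool × Fin (2 * k) => inS s p) =
      ({true} ×ˢ s.1.1) ∪ ({false} ×ˢ s.2.1) := by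
    ext ⟨b, x⟩
    rw [mem_filter]
    cases b <;> simp [inS]
  rw [this, card_union_of_disjoint, card_product, card_product, s.1.2, s.2.2]
  · simp only [card_singleton]
    ring
  · rw [disjoint_left]
    rintro ⟨b, x⟩ h1 h2
    simp only [mem_product, mem_singleton] at h1 h2
    exact absurd (h1.1.symm.trans h2.1) (by decide)

theorem regular (hx : 0 < k) : (G k).IsRegularOfDegree (2 * (k + 1) * g k - 1) := by
  intro v
  have hC : 2 * g k = Fintype.card (P k) * Fintype.card (P k) := by
    have := two_mul_card_mem (k := k) ⟨0, by omega⟩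
    unfold g
    have h2 : 2 * (Fintype.card (P k) / 2) = Fintype.card (P k) := by omega
    calc 2 * (Fintype.card (P k) * (Fintype.card (P k) / 2))
        = Fintype.card (P k) * (2 * (Fintype.card (P k) / 2)) := by ring
      _ = _ := by rw [h2]
  rw [← SimpleGraph.card_neighborFinset_eq_degree, SimpleGraph.neighborFinset_eq_filter]
  have h : (univ.filter fun w : W k => (G k).Adj v w) = (univ.filter fun w : W k => adj v w) := by
    apply filter_congr
    intro w _
    exact Iff.rfl
  rw [h, card_split]
  rcases v with s | p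
  · have h1 : (univ.filter fun t : P k × P k => adj (Sum.inl s) (Sum.inl t)) = univ.erase s := by
      ext t
      rw [mem_filter, mem_erase]
      constructor
      · rintro ⟨_, h3⟩
        have h4 : s ≠ t := h3
        exact ⟨h4.symm, mem_univ _⟩
      · rintro ⟨h3, _⟩
        exact ⟨mem_univ _, fun e => h3 e.symm⟩
    have h2 : (univ.filter fun q : (Bool × Fin (2 * k)) × Fin (g k) => adj (Sum.inl s) (Sum.inr q)) =
        (univ.filter fun p : Bool × Fin (2 * k) => inS s p) ×ˢ univ := by
      ext q
      rw [mem_filter, mem_product, mem_filter]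
      constructor
      · rintro ⟨_, h3⟩
        exact ⟨⟨mem_univ _, h3⟩, mem_univ _⟩
      · rintro ⟨⟨_, h3⟩, _⟩
        exact ⟨mem_univ _, h3⟩
    rw [h1, h2, card_erase_of_mem (mem_univ _), card_product, card_pts, card_univ, card_univ,
      Fintype.card_prod, Fintype.card_fin, ← hC]
    have h3 : 0 < g k := by
      have : 0 < Fintype.card (P k) * Fintype.card (P k) := by
        have : 0 < Fintype.card (P k) := Fintype.card_pos_iff.2 ⟨s.1⟩
        positivity
      omega
    have h4 : 2 * (k + 1) * g k = 2 * g k + 2 * k * g k := by ring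
    omega
  · have h1 : (univ.filter fun t : P k × P k => adj (Sum.inr p) (Sum.inl t)) =
        (univ.filter fun s : P k × P k => inS s p.1) := rfl
    have h2 : (univ.filter fun q : (Bool × Fin (2 * k)) × Fin (g k) => adj (Sum.inr p) (Sum.inr q)) =
        ((insert p.1 ({!p.1.1} ×ˢ (univ : Finset (Fin (2 * k))))) ×ˢ
          (univ : Finset (Fin (g k)))).erase p := by
      ext q
      rw [mem_filter, mem_erase, mem_product, mem_insert, mem_product, mem_singleton]
      constructor
      · rintro ⟨_, h3, h4⟩
        refine ⟨fun e => h3 e.symm, ?_, mem_univ _⟩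
        rcases h4 with h4 | h4
        · exact Or.inl h4.symm
        · right
          refine ⟨?_, mem_univ _⟩
          revert h4
          cases p.1.1 <;> cases q.1.1 <;> simp
      · rintro ⟨h3, h4, _⟩
        refine ⟨mem_univ _, fun e => h3 e.symm, ?_⟩
        rcases h4 with h4 | ⟨h4, _⟩
        · exact Or.inl h4.symm
        · right
          rw [h4]
          cases p.1.1 <;> simp
    have hn : p.1 ∉ (({!p.1.1} : Finset Bool) ×ˢ (univ : Finset (Fin (2 * k)))) := by
      intro hc
      rw [mem_product, mem_singleton] at hc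
      have h3 := hc.1
      revert h3
      cases p.1.1 <;> simp
    rw [h1, h2, card_inS, card_erase_of_mem, card_product, card_insert_of_notMem hn, card_product,
      card_singleton, card_univ, card_univ, Fintype.card_fin, Fintype.card_fin]
    · have h3 : 0 < g k := lt_of_le_of_lt (Nat.zero_le _) p.2.2
      have h4 : 2 * (k + 1) * g k = g k + (1 * (2 * k) + 1) * g k := by ring
      have h5 : 0 < (1 * (2 * k) + 1) * g k := by positivity
      omega
    · exact mem_product.2 ⟨mem_insert_self _ _, mem_univ _⟩

/-- A clique involves at most one vertex of each part of `K_{2k,2k}`. -/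
theorem part (hx : 0 < k) (Q : Set (W k)) (hQ : (G k).IsClique Q) (b : Bool) :
    ∃ x : Fin (2 * k), ∀ (y : Fin (2 * k)) (i : Fin (g k)), (Sum.inr ((b, y), i) : W k) ∈ Q → y = x := by
  by_cases h : ∃ (x : Fin (2 * k)) (i : Fin (g k)), (Sum.inr ((b, x), i) : W k) ∈ Q
  · obtain ⟨x, i, hx⟩ := h
    refine ⟨x, fun y j hy => ?_⟩
    by_contra hne
    have h1 : (G k).Adj (Sum.inr ((b, y), j)) (Sum.inr ((b, x), i)) := by
      apply hQ hy hx
      intro e
      exact hne (congrArg (fun z => z.1.2) (Sum.inr_injective e))
    obtain ⟨_, h2⟩ := (h1 : adj (Sum.inr ((b, y), j)) (Sum.inr ((b, x), i)))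
    rcases h2 with h2 | h2
    · exact hne (congrArg Prod.snd h2)
    · exact h2 rfl
  · exact ⟨⟨0, by omega⟩, fun y i hy => absurd ⟨y, i, hy⟩ h⟩

theorem mem_of_cover (Z : Set (W k)) (hZ : Maximal (G k).IsClique Z) (s : P k × P k)
    (h : ∀ (b : Bool) (z : Fin (2 * k)) (i : Fin (g k)), (Sum.inr ((b, z), i) : W k) ∈ Z → inS s (b, z)) :
    (Sum.inl s : W k) ∈ Z := by
  have h1 : (G k).IsClique (insert (Sum.inl s : W k) Z) := by
    rw [SimpleGraph.isClique_insert]
    refine ⟨hZ.1, fun w hw hne => ?_⟩
    change adj (Sum.inl s) w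
    rcases w with t | ⟨⟨b, z⟩, i⟩
    · exact fun e => hne (by rw [e])
    · exact h b z i hw
  exact hZ.2 h1 (Set.subset_insert _ _) (Set.mem_insert _ _)

/-- For every `k ≥ 1` there is a finite regular graph, not complete, in which every `k` maximal cliques
have a common vertex. -/
theorem result (k : ℕ) (hk : 1 ≤ k) :
    ∃ (V : Type) (_ : Fintype V) (_ : DecidableEq V) (G : SimpleGraph V) (_ : DecidableRel G.Adj)
      (d : ℕ), G.IsRegularOfDegree d ∧ G ≠ ⊤ ∧
        ∀ Q : Fin k → Set V, (∀ i, Maximal G.IsClique (Q i)) → ∃ v, ∀ i, v ∈ Q i := by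
  refine ⟨W k, inferInstance, inferInstance, G k, inferInstance, _, regular hk, ?_, ?_⟩
  · -- not complete
    intro h
    obtain ⟨A, _, hA⟩ := Finset.exists_subset_card_eq
      (show k ≤ (univ : Finset (Fin (2 * k))).card by rw [card_univ, Fintype.card_fin]; omega)
    obtain ⟨x, hx⟩ : ∃ x, x ∉ A := by
      by_contra hcon
      push Not at hcon
      have : A = univ := eq_univ_iff_forall.2 hcon
      rw [this, card_univ, Fintype.card_fin] at hA
      omega
    have hg : 0 < g k := by
      have h1 := two_mul_card_mem (k := k) x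
      have h2 : 0 < Fintype.card (P k) := Fintype.card_pos_iff.2 ⟨⟨A, hA⟩⟩
      unfold g
      have h3 : 0 < Fintype.card (P k) / 2 := by omega
      positivity
    have h1 : (⊤ : SimpleGraph (W k)).Adj (Sum.inl (⟨A, hA⟩, ⟨A, hA⟩)) (Sum.inr ((true, x), ⟨0, hg⟩)) := by
      rw [SimpleGraph.top_adj]
      exact Sum.inl_ne_inr
    rw [← h] at h1
    have h2 : inS ((⟨A, hA⟩, ⟨A, hA⟩) : P k × P k) (true, x) := h1
    simp only [inS, if_true] at h2
    exact hx h2
  · intro Q hQ
    have h1 : ∀ b : Bool, ∃ x : Fin k → Fin (2 * k), ∀ (i : Fin k) (y : Fin (2 * k)) (j : Fin (g k)),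
        (Sum.inr ((b, y), j) : W k) ∈ Q i → y = x i := by
      intro b
      choose x hx using fun i => part hk (Q i) (hQ i).1 b
      exact ⟨x, hx⟩
    have h2 : ∀ b : Bool, ∃ A : P k, ∀ (i : Fin k) (y : Fin (2 * k)) (j : Fin (g k)),
        (Sum.inr ((b, y), j) : W k) ∈ Q i → y ∈ A.1 := by
      intro b
      obtain ⟨x, hx⟩ := h1 b
      have h3 : (univ.image x).card ≤ k := card_image_le.trans (by rw [card_univ, Fintype.card_fin])
      obtain ⟨A, hA1, hA2⟩ := Finset.exists_superset_card_eq h3
        (show k ≤ Fintype.card (Fin (2 * k)) by rw [Fintype.card_fin]; omega)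
      exact ⟨⟨A, hA2⟩, fun i y j hy => hA1 (mem_image.2 ⟨i, mem_univ _, (hx i y j hy).symm⟩)⟩
    obtain ⟨A, hA⟩ := h2 true
    obtain ⟨B, hB⟩ := h2 false
    refine ⟨Sum.inl (A, B), fun i => mem_of_cover (Q i) (hQ i) _ fun b z j hz => ?_⟩
    cases b
    · simpa [inS] using hB i z j hz
    · simpa [inS] using hA i z j hz

end Pool.Agent.Results.MP_7cf704_co.EveryKCliquesMeet
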